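import Mathlib
import Pool.Agent.MP_890ef7_an.Defs

/-! Definitions: faithful normal tracial states and factors of type II_1. -/

open scoped InnerProductSpace
open Filter Topology

namespace Pool.Agent.MP_890ef7_an

universe v

variable {H : Type v} [NormedAddCommGroup H] [InnerProductSpace ℂ H] [CompleteSpace H]

/-- The restriction of `τ` to `M` is a faithful normal tracial state. -/
def IsTraceOn (M : VonNeumannAlgebra H) (τ : (H →L[ℂ] H) → ℂ) : Prop :=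
  (∀ x ∈ M, ∀ y ∈ M, τ (x + y) = τ x + τ y ∧ τ (x * y) = τ (y * x)) ∧
    (∀ c : ℂ, ∀ x ∈ M, τ (c • x) = c * τ x) ∧ τ 1 = 1 ∧
    (∀ x ∈ M, 0 ≤ (τ (star x * x)).re ∧ (τ (star x * x)).im = 0) ∧
    (∀ x ∈ M, τ (star x * x) = 0 → x = 0) ∧
    ∀ (l : Filter (H →L[ℂ] H)), ∀ y ∈ M, (∀ᶠ z in l, z ∈ M ∧ ‖z‖ ≤ 1) →
      (∀ a b : H, Tendsto (fun z : H →L[ℂ] H => ⟪a, z b⟫_ℂ) l (𝓝 ⟪a, y b⟫_ℂ)) →
      Tendsto τ l (𝓝 (τ y))

/-- `M` is a factor without minimal projections that has a faithful normal tracial state. -/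
def IsII1 (M : VonNeumannAlgebra H) : Prop :=
  (∀ z ∈ M, (∀ x ∈ M, z * x = x * z) → ∃ c : ℂ, z = c • 1) ∧
    (∀ p ∈ M, star p = p → p * p = p → p ≠ 0 →
      ∃ q ∈ M, star q = q ∧ q * q = q ∧ p * q = q ∧ q ≠ 0 ∧ q ≠ p) ∧
    ∃ τ : (H →L[ℂ] H) → ℂ, IsTraceOn M τ

end Pool.Agent.MP_890ef7_an
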